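import Pool.Agent.H466.HE.SA
import Pool.Agent.H127.HD.NA

/-!
# Replacing the piece of zeta by its Gaussian cut-off, bands in general position (project HE of helper466)
-/

set_option autoImplicit false

namespace Pool.Agent.H387.HE.NAg

open Complex MeasureTheory Set Filter Topology
open Pool.Agent.H466.HD Pool.Agent.H466.HE Pool.Agent.H127.HD.NA
open scoped ComplexConjugate
open Pool.Agent.H477.E (MT bc Nn)

theorem pb_sum2 {CP : ℝ} (hCP : 0 < CP) (hP : ∀ (u w x : ℝ) (N : ℕ), 1 ≤ u → 0 < w → w ≤ 1 →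
    ∑ p ∈ (Finset.Icc 1 N).filter (fun p : ℕ => p.Prime ∧ u ≤ Real.log p),
      Real.exp (-(w ^ 2 * (x - Real.log p) ^ 2)) / p ≤ CP / (w * u)) {L c w ε : ℝ} (hε : 0 < ε) (hL : 4 ≤ L)
    (hεL : 1 ≤ ε * L) (h1 : ε * L ≤ c - w) (h2 : w ≤ L) (hw : 0 ≤ w) :
    ∑ p ∈ Pb c w, 1 / (p : ℝ) ≤ Real.exp 1 * CP / ε := by
  have hL0 : 0 < L := by linarith
  have h3 := hP (c - w) (1 / L) c ⌊Real.exp (c + w)⌋₊ (by linarith) (by positivity) (by
    rw [div_le_one hL0]; linarith)
  have h4 : ∑ p ∈ Pb c w, 1 / (p : ℝ) ≤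
      ∑ p ∈ Pb c w, Real.exp 1 * (Real.exp (-((1 / L) ^ 2 * (c - Real.log p) ^ 2)) / p) := by
    refine Finset.sum_le_sum fun p hp => ?_
    obtain ⟨a1, a2, a3, -⟩ := mem_Pb hp
    have hp0 : (0 : ℝ) < p := by exact_mod_cast a1.pos
    rw [← mul_div_assoc, ← Real.exp_add]
    apply div_le_div_of_nonneg_right _ hp0.le
    apply Real.one_le_exp
    have a4 : (c - Real.log p) ^ 2 ≤ L ^ 2 := by
      apply sq_le_sq'
      · linarith
      · linarith
    have a5 : (1 / L) ^ 2 * (c - Real.log p) ^ 2 ≤ 1 := by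
      rw [one_div, inv_pow, inv_mul_le_iff₀ (by positivity), mul_one]
      exact a4
    linarith
  rw [← Finset.mul_sum] at h4
  refine h4.trans ?_
  have h5 : CP / (1 / L * (c - w)) ≤ CP / ε := by
    have h6 : ε ≤ 1 / L * (c - w) := by
      rw [one_div_mul_eq_div, le_div_iff₀ hL0]
      linarith
    exact div_le_div_of_nonneg_left hCP.le hε h6
  calc Real.exp 1 * ∑ p ∈ Pb c w, Real.exp (-((1 / L) ^ 2 * (c - Real.log p) ^ 2)) / p ≤
        Real.exp 1 * (CP / ε) := mul_le_mul_of_nonneg_left (h3.trans h5) (Real.exp_pos _).le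
    _ = _ := by ring

theorem nag (h1 : S_DB) (h2 : S_KER) (h3 : S_MVT) (h4 : S_PR) : S_NAg := by
  intro β k C0 hB ε hε
  obtain ⟨θ0, hθ0, hK⟩ := h2
  obtain ⟨⟨CP, hCP, hP⟩, -⟩ := h4
  have hC0 := hB.Cp
  refine ⟨min θ0 1, lt_min hθ0 one_pos, fun θ hθ hθ1 => ?_⟩
  obtain ⟨CK, T1, hCK, hT1, hKer⟩ := hK θ hθ (hθ1.trans (min_le_left _ _))
  have hθ2 : θ ≤ 1 := hθ1.trans (min_le_right _ _)
  have hpi := Real.pi_pos
  have he1 := Real.exp_pos 1
  set C2 := Real.exp 1 * CP / ε with hC2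
  set A1 := C0 / (8 * ε ^ 9) with hA1
  set A2 := C0 / ε ^ 8 with hA2
  have hC2p : 0 < C2 := by positivity
  have hA1p : 0 < A1 := by positivity
  have hA2p : 0 < A2 := by positivity
  set D1 := 15 * C0 * Real.pi with hD1
  set D3 := (CK * A1 ^ 2 + C2) / 2 + 512 * C0 * (1 + C2) with hD3
  set D4 := (CK * A2 ^ 2 + C2) / 2 with hD4
  have hD1p : 0 < D1 := by positivity
  have hD3p : 0 < D3 := by positivity
  have hD4p : 0 < D4 := by positivity
  refine ⟨D1 + C2 + D3 + D4, max T1 (Real.exp (400 + 1 / ε)), by positivity,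
    hT1.trans (le_max_left _ _), ?_⟩
  intro T c w μ hT hBd hμ hμ1 hμ2
  have hTK := (le_max_left _ _).trans hT
  have hTe := (le_max_right _ _).trans hT
  have hT0 : 0 < T := by linarith
  have hT1' : 1 < T := by linarith
  have hL : 400 + 1 / ε ≤ Real.log T := by
    rw [← Real.log_exp (400 + 1 / ε)]
    exact Real.log_le_log (Real.exp_pos _) hTe
  have hKer2 := hKer T hTK
  obtain ⟨-, hw1, hlo, hhi⟩ := hBd
  set L := Real.log T with hLd
  have hie : 0 < 1 / ε := by positivity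
  have hL4 : 400 ≤ L := by linarith
  have hL0 : 0 < L := by linarith
  have heL : 0 < ε * L := by positivity
  have hεL1 : 1 ≤ ε * L := by
    have : 1 / ε ≤ L := by linarith
    rw [div_le_iff₀ hε] at this
    linarith
  have hw : 1 ≤ w := hεL1.trans hw1
  have hw0 : 0 < w := by linarith
  have hhi2 : c + w ≤ L / 2 - ε * L := by linarith
  have hε1 : ε ≤ 1 := by
    by_contra hc
    rw [not_le] at hc
    nlinarith
  have hwL : w ≤ L := by linarith
  have hcw : c + w ≤ L / 2 := by linarith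
  -- intervals
  set a := T - T / (4 * L) with ha
  set b := T + T / (4 * L) with hb
  have hTL : 0 < T / L := by positivity
  have hab : a ≤ b := by
    have : 0 ≤ T / (4 * L) := by positivity
    linarith
  have hba : b - a ≤ T / L := by
    have : b - a = T / L / 2 := by
      rw [ha, hb]
      field_simp
      ring
    rw [this]
    linarith
  have hya : ∀ y ∈ Icc a b, T / 2 ≤ y := by
    intro y hy
    have h5 : T / (4 * L) ≤ T / 2 := by
      apply div_le_div_of_nonneg_left hT0.le (by norm_num)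
      linarith
    linarith [hy.1]
  -- the prime polynomial
  have hPn : ∫ y in a..b, ‖Pn β c w y‖ ^ 2 ≤ C2 * (T / L) := by
    refine (pn_sq h3 hB hT0 hL4 hcw).trans ?_
    rw [mul_comm C2]
    exact mul_le_mul_of_nonneg_left (pb_sum2 hCP hP hε (by linarith) hεL1 hlo hwL hw0.le) hTL.le
  -- the convolutions
  obtain ⟨f1c, f1i, -⟩ := conv_all (K1_cont hB c w μ) hw hC0.le (K1_bd hB hw hμ)
  obtain ⟨f2c, f2i, f2b⟩ := conv_all (K2_cont hB c w μ) hw hC0.le (K2_bd hB hw hμ)
  set F : ℝ → ℂ := fun y => ∫ v : ℝ, Zt (y + v) * K1 k c w μ v with hF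
  have hDG : DG k c w μ = fun y => ∫ v : ℝ, Zt (y + v) * K2 k c w μ v := by
    funext y
    exact DG_eq k c w μ y
  have hDGc : Continuous (DG k c w μ) := by rw [hDG]; exact f2c
  set M := μ * L ^ 2 with hM
  have hM0 : 0 < M := by positivity
  have hML : M ≤ L ^ 2 := by
    rw [hM]
    exact mul_le_of_le_one_left (by positivity) hμ2
  have hkF : ∫ y in a..b, (‖F y‖ * ‖Mt θ T y‖) ^ 2 ≤ CK * (A1 / M) ^ 2 * (T / L) := by
    apply hKer2 (K1 k c w μ) (A1 / M) (K1_cont hB c w μ) (by positivity)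
    intro v
    exact K1_bd2 hB hε hε1 hL0 hw hw1 hμ v
  have hkG : ∫ y in a..b, (‖DG k c w μ y‖ * ‖Mt θ T y‖) ^ 2 ≤ CK * A2 ^ 2 * (T / L) := by
    rw [hDG]
    apply hKer2 (K2 k c w μ) A2 (K2_cont hB c w μ) (by positivity)
    intro v
    exact K2_bd2 hB hε hε1 hL0 hw hw1 hwL hμ v
  have hMc := Mt_cont θ T
  have hPc := Pn_cont β c w
  have hDc := Dn_cont β c w
  have iP : IntervalIntegrable (fun y => ‖Pn β c w y‖ ^ 2) volume a b :=
    (hPc.norm.pow 2).intervalIntegrable _ _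
  have iF : IntervalIntegrable (fun y => (‖F y‖ * ‖Mt θ T y‖) ^ 2) volume a b :=
    ((f1c.norm.mul hMc.norm).pow 2).intervalIntegrable _ _
  have iG : IntervalIntegrable (fun y => (‖DG k c w μ y‖ * ‖Mt θ T y‖) ^ 2) volume a b :=
    ((hDGc.norm.mul hMc.norm).pow 2).intervalIntegrable _ _
  refine ⟨hDGc, ?_, ?_, ?_, ?_⟩
  · intro y
    rw [DG_eq]
    refine (f2b y).trans ?_
    have h5 := abs_nonneg y
    have h6 : D1 * (1 + |y|) ≤ (D1 + C2 + D3 + D4) * (2 + |y|) :=
      mul_le_mul (by linarith) (by linarith) (by linarith) (by positivity)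
    calc 15 * C0 * (1 + |y|) * Real.pi = D1 * (1 + |y|) := by rw [hD1]; ring
      _ ≤ _ := h6
  · set ρ := 1024 * C0 / L ^ 2 with hρ
    have hρ0 : 0 < ρ := by positivity
    have hpt : ∀ y ∈ Icc a b, ‖(Dn β c w y - DG k c w μ y) * Mt θ T y * Pn β c w y‖ ≤
        M / 2 * (‖F y‖ * ‖Mt θ T y‖) ^ 2 + (1 / (2 * M) + ρ / 2) * ‖Pn β c w y‖ ^ 2 + ρ / 2 := by
      intro y hy
      have hyT := hya y hy
      have hy0 : 0 < y := by linarith
      rw [diff_eq hB h1 hw hμ y, norm_mul, norm_mul]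
      have b1 : ‖Rn β c w y‖ * ‖Mt θ T y‖ ≤ ρ := by
        have c1 := Rn_bd hB (c := c) hw hy0
        have c2 : Real.exp ((c + w) / 2) ≤ T := by
          calc Real.exp ((c + w) / 2) ≤ Real.exp L := Real.exp_le_exp.2 (by linarith)
            _ = T := Real.exp_log hT0
        have c3 : (T / 2) ^ 10 ≤ y ^ 10 := pow_le_pow_left₀ (by positivity) hyT 10
        have c4 : ‖Rn β c w y‖ ≤ 1024 * C0 / T ^ 9 := by
          refine c1.trans ?_
          calc C0 * Real.exp ((c + w) / 2) / y ^ 10 ≤ C0 * T / (T / 2) ^ 10 := by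
                apply div_le_div₀ (by positivity) _ (by positivity) c3
                exact mul_le_mul_of_nonneg_left c2 hC0.le
            _ = _ := by field_simp; norm_num
        have c5 := Mt_bd (T := T) hθ hθ2 hT1' y
        have c6 : L ^ 2 ≤ T := by
          have d1 := Real.quadratic_le_exp_of_nonneg (x := L / 2) (by linarith)
          have d2 : L ≤ Real.exp (L / 2) := by nlinarith [sq_nonneg (L - 2)]
          calc L ^ 2 ≤ Real.exp (L / 2) ^ 2 := pow_le_pow_left₀ hL0.le d2 2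
            _ = T := by
              rw [sq, ← Real.exp_add, add_halves, hLd, Real.exp_log hT0]
        calc ‖Rn β c w y‖ * ‖Mt θ T y‖ ≤ 1024 * C0 / T ^ 9 * T ^ 2 :=
              mul_le_mul c4 c5 (norm_nonneg _) (by positivity)
          _ = 1024 * C0 / T ^ 7 := by field_simp
          _ ≤ 1024 * C0 / L ^ 2 := by
              apply div_le_div_of_nonneg_left (by positivity) (by positivity)
              exact c6.trans (le_self_pow₀ hT1'.le (by norm_num))
      have b2 : ‖F y + Rn β c w y‖ ≤ ‖F y‖ + ‖Rn β c w y‖ := norm_add_le _ _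
      have b3 := amgm (x := ‖F y‖ * ‖Mt θ T y‖) (z := ‖Pn β c w y‖) hM0
      have b4 : ‖Rn β c w y‖ * ‖Mt θ T y‖ * ‖Pn β c w y‖ ≤
          ρ / 2 * ‖Pn β c w y‖ ^ 2 + ρ / 2 := by
        refine (mul_le_mul_of_nonneg_right b1 (norm_nonneg _)).trans ?_
        nlinarith [sq_nonneg (‖Pn β c w y‖ - 1)]
      calc ‖F y + Rn β c w y‖ * ‖Mt θ T y‖ * ‖Pn β c w y‖ ≤
            (‖F y‖ + ‖Rn β c w y‖) * ‖Mt θ T y‖ * ‖Pn β c w y‖ := by gcongr
        _ = ‖F y‖ * ‖Mt θ T y‖ * ‖Pn β c w y‖ +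
            ‖Rn β c w y‖ * ‖Mt θ T y‖ * ‖Pn β c w y‖ := by ring
        _ ≤ _ := by linarith
    have hint : ∫ y in a..b, ‖(Dn β c w y - DG k c w μ y) * Mt θ T y * Pn β c w y‖ ≤
        ∫ y in a..b, (M / 2 * (‖F y‖ * ‖Mt θ T y‖) ^ 2 +
          (1 / (2 * M) + ρ / 2) * ‖Pn β c w y‖ ^ 2 + ρ / 2) := by
      apply intervalIntegral.integral_mono_on hab
      · exact ((((hDc.sub hDGc).mul hMc).mul hPc).norm).intervalIntegrable _ _
      · exact ((iF.const_mul _).add (iP.const_mul _)).add intervalIntegrable_const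
      · exact hpt
    refine hint.trans ?_
    rw [intervalIntegral.integral_add ((iF.const_mul _).add (iP.const_mul _))
      intervalIntegrable_const, intervalIntegral.integral_add (iF.const_mul _) (iP.const_mul _),
      intervalIntegral.integral_const_mul, intervalIntegral.integral_const_mul,
      intervalIntegral.integral_const, smul_eq_mul]
    have e1 : M / 2 * ∫ y in a..b, (‖F y‖ * ‖Mt θ T y‖) ^ 2 ≤
        M / 2 * (CK * (A1 / M) ^ 2 * (T / L)) := mul_le_mul_of_nonneg_left hkF (by positivity)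
    have e2 : (1 / (2 * M) + ρ / 2) * ∫ y in a..b, ‖Pn β c w y‖ ^ 2 ≤
        (1 / (2 * M) + ρ / 2) * (C2 * (T / L)) := mul_le_mul_of_nonneg_left hPn (by positivity)
    have e3 : (b - a) * (ρ / 2) ≤ T / L * (ρ / 2) :=
      mul_le_mul_of_nonneg_right hba (by positivity)
    have e4 : ρ ≤ 1024 * C0 / M := div_le_div_of_nonneg_left (by positivity) hM0 hML
    have e5 : ρ / 2 * ((1 + C2) * (T / L)) ≤ 1024 * C0 / M / 2 * ((1 + C2) * (T / L)) := by
      apply mul_le_mul_of_nonneg_right _ (by positivity)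
      linarith
    have e6 : M / 2 * (CK * (A1 / M) ^ 2 * (T / L)) + 1 / (2 * M) * (C2 * (T / L)) +
        1024 * C0 / M / 2 * ((1 + C2) * (T / L)) = D3 / M * (T / L) := by
      rw [hD3]
      field_simp
      ring
    have e7 : D3 / M * (T / L) ≤ (D1 + C2 + D3 + D4) / M * (T / L) := by
      apply mul_le_mul_of_nonneg_right _ hTL.le
      apply div_le_div_of_nonneg_right _ hM0.le
      linarith
    linarith
  · have hpt : ∀ y ∈ Icc a b, ‖DG k c w μ y * Mt θ T y * Pn β c w y‖ ≤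
        1 / 2 * (‖DG k c w μ y‖ * ‖Mt θ T y‖) ^ 2 + 1 / 2 * ‖Pn β c w y‖ ^ 2 := by
      intro y _
      rw [norm_mul, norm_mul]
      have := amgm (x := ‖DG k c w μ y‖ * ‖Mt θ T y‖) (z := ‖Pn β c w y‖) one_pos
      rw [mul_one] at this
      exact this
    have hint : ∫ y in a..b, ‖DG k c w μ y * Mt θ T y * Pn β c w y‖ ≤
        ∫ y in a..b, (1 / 2 * (‖DG k c w μ y‖ * ‖Mt θ T y‖) ^ 2 +
          1 / 2 * ‖Pn β c w y‖ ^ 2) := by
      apply intervalIntegral.integral_mono_on hab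
      · exact (((hDGc.mul hMc).mul hPc).norm).intervalIntegrable _ _
      · exact (iG.const_mul _).add (iP.const_mul _)
      · exact hpt
    refine hint.trans ?_
    rw [intervalIntegral.integral_add (iG.const_mul _) (iP.const_mul _),
      intervalIntegral.integral_const_mul, intervalIntegral.integral_const_mul]
    have e1 : D4 * (T / L) = 1 / 2 * (CK * A2 ^ 2 * (T / L)) + 1 / 2 * (C2 * (T / L)) := by
      rw [hD4]
      ring
    have e2 : D4 * (T / L) ≤ (D1 + C2 + D3 + D4) * (T / L) :=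
      mul_le_mul_of_nonneg_right (by linarith) hTL.le
    linarith
  · refine hPn.trans ?_
    exact mul_le_mul_of_nonneg_right (by linarith) hTL.le

end Pool.Agent.H387.HE.NAg
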